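import Mathlib

/-!
# Maximal packings with tree edges
-/

set_option autoImplicit false

namespace Pool.Agent.Helper77.GB

open Set Metric

variable {E : Type*} [NormedAddCommGroup E] [NormedSpace ℝ E] [ProperSpace E]

/-- A packing modulo `P`, with tree edges of length `ρ`. -/
def Good (P : AddSubgroup E) (ρ : ℝ) (k : ℕ) (z : ℕ → E) (par : ℕ → ℕ) : Prop :=
  (∀ e < k, par e ≤ e ∧ ‖z (e + 1) - z (par e)‖ = ρ) ∧
  (∀ i ≤ k, ∀ j ≤ k, ∀ p ∈ P, ¬ (i = j ∧ p = 0) → ρ ≤ ‖z i - z j - p‖)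

omit [NormedSpace ℝ E] [ProperSpace E] in
/-- The size of a packing is bounded. -/
theorem good_bounded (P : AddSubgroup E) {ρ : ℝ} (hρ : 0 < ρ) {K : Set E} (hK : IsCompact K)
    (hKP : ∀ y, ∃ p ∈ P, y - p ∈ K) :
    ∃ N : ℕ, ∀ k z par, Good P ρ k z par → k ≤ N := by
  obtain ⟨t, -, htf, ht⟩ := hK.finite_cover_balls (half_pos hρ)
  refine ⟨htf.toFinset.card, fun k z par hg => ?_⟩
  by_contra hcon
  push Not at hcon
  choose p hp hpK using fun i => hKP (z i)
  have h1 : ∀ i, ∃ c ∈ t, z i - p i ∈ ball c (ρ / 2) := by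
    intro i
    have := ht (hpK i)
    simpa using this
  choose c hc hcb using h1
  -- pigeonhole
  have h2 : ∃ i ∈ Finset.range (k + 1), ∃ j ∈ Finset.range (k + 1), i ≠ j ∧ c i = c j := by
    apply Finset.exists_ne_map_eq_of_card_lt_of_maps_to (t := htf.toFinset)
    · rw [Finset.card_range]; omega
    · intro i _
      simpa using hc i
  obtain ⟨i, hi, j, hj, hij, hcij⟩ := h2
  rw [Finset.mem_range] at hi hj
  have h3 := hg.2 i (by omega) j (by omega) (p i - p j) (P.sub_mem (hp i) (hp j))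
    (fun h => hij h.1)
  have h4 : z i - z j - (p i - p j) = (z i - p i) - (z j - p j) := by abel
  rw [h4, ← dist_eq_norm] at h3
  have h5 := hcb i
  have h6 := hcb j
  rw [mem_ball] at h5 h6
  rw [← hcij] at h6
  have := dist_triangle_right (z i - p i) (z j - p j) (c i)
  linarith

/-- The maximal packing. -/
theorem exists_packing (P : AddSubgroup E) (hPc : IsClosed (P : Set E)) {ρ : ℝ} (hρ : 0 < ρ)
    (hPρ : ∀ p ∈ P, p ≠ 0 → ρ ≤ ‖p‖) {K : Set E} (hK : IsCompact K)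
    (hKP : ∀ y, ∃ p ∈ P, y - p ∈ K) :
    ∃ (k : ℕ) (z : ℕ → E) (par : ℕ → ℕ), Good P ρ k z par ∧
      ∃ R < ρ, 0 ≤ R ∧ ∀ y, ∃ j ≤ k, ∃ p ∈ P, ‖y - z j - p‖ ≤ R := by
  classical
  obtain ⟨N, hN⟩ := good_bounded P hρ hK hKP
  -- a maximal configuration
  have hex : ∃ k, ∃ z : ℕ → E, ∃ par : ℕ → ℕ, Good P ρ k z par := by
    refine ⟨0, fun _ => 0, fun _ => 0, ?_, ?_⟩
    · intro e he; omega
    · intro i hi j hj p hp hne
      have h1 : i = 0 := by omega
      have h2 : j = 0 := by omega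
      subst h1; subst h2
      simp only [sub_self, zero_sub, norm_neg]
      exact hPρ p hp (fun h => hne ⟨rfl, h⟩)
  set kk := Nat.findGreatest (fun k => ∃ z : ℕ → E, ∃ par : ℕ → ℕ, Good P ρ k z par) N with hkk
  obtain ⟨k0, hk0⟩ := hex
  have hk0N : k0 ≤ N := by
    obtain ⟨z, par, h⟩ := hk0
    exact hN _ _ _ h
  have hspec : ∃ z : ℕ → E, ∃ par : ℕ → ℕ, Good P ρ kk z par :=
    Nat.findGreatest_spec (P := fun k => ∃ z : ℕ → E, ∃ par : ℕ → ℕ, Good P ρ k z par) hk0N hk0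
  have hmax : ∀ k z par, Good P ρ k z par → k ≤ kk := by
    intro k z par h
    exact Nat.le_findGreatest (hN _ _ _ h) ⟨z, par, h⟩
  obtain ⟨z, par, hg⟩ := hspec
  refine ⟨kk, z, par, hg, ?_⟩
  -- the set of centres
  set S : Set E := ⋃ j ∈ Finset.range (kk + 1), (fun p => z j + p) '' (P : Set E) with hS
  have hSmem : ∀ x, x ∈ S ↔ ∃ j ≤ kk, ∃ p ∈ P, x = z j + p := by
    intro x
    rw [hS]
    simp only [mem_iUnion, Finset.mem_range, mem_image, exists_prop, SetLike.mem_coe]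
    constructor
    · rintro ⟨j, hj, p, hp, rfl⟩
      exact ⟨j, by omega, p, hp, rfl⟩
    · rintro ⟨j, hj, p, hp, rfl⟩
      exact ⟨j, by omega, p, hp, rfl⟩
  have hSc : IsClosed S := by
    rw [hS]
    apply Set.Finite.isClosed_biUnion (Finset.finite_toSet _)
    intro j _
    exact (Homeomorph.addLeft (z j)).isClosedMap _ hPc
  have hSne : S.Nonempty := ⟨z 0, (hSmem _).2 ⟨0, by omega, 0, P.zero_mem, by simp⟩⟩
  have hcont : Continuous (fun y => infDist y S) := continuous_infDist_pt S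
  have hnear : ∀ y, ∃ j ≤ kk, ∃ p ∈ P, ‖y - z j - p‖ = infDist y S := by
    intro y
    obtain ⟨x, hx, hxd⟩ := hSc.exists_infDist_eq_dist hSne y
    obtain ⟨j, hj, p, hp, rfl⟩ := (hSmem x).1 hx
    refine ⟨j, hj, p, hp, ?_⟩
    rw [hxd, dist_eq_norm, sub_sub]
  have hfar : ∀ y, ∀ j ≤ kk, ∀ p ∈ P, infDist y S ≤ ‖y - z j - p‖ := by
    intro y j hj p hp
    have := infDist_le_dist_of_mem (x := y) ((hSmem _).2 ⟨j, hj, p, hp, rfl⟩)
    rwa [dist_eq_norm, ← sub_sub] at this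
  -- maximality
  have hlt : ∀ y, infDist y S < ρ := by
    by_contra hcon
    push Not at hcon
    obtain ⟨y0, hy0⟩ := hcon
    have h0 : infDist (z 0) S = 0 := infDist_zero_of_mem ((hSmem _).2 ⟨0, by omega, 0, P.zero_mem, by simp⟩)
    have hIVT : ∃ y1, infDist y1 S = ρ := by
      have h1 : ρ ∈ range (fun y => infDist y S) := by
        apply mem_range_of_exists_le_of_exists_ge hcont
        · exact ⟨z 0, by rw [h0]; exact hρ.le⟩
        · exact ⟨y0, hy0⟩
      exact h1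
    obtain ⟨y1, hy1⟩ := hIVT
    obtain ⟨j, hj, p, hp, hjp⟩ := hnear y1
    rw [hy1] at hjp
    have hnew : Good P ρ (kk + 1) (fun i => if i = kk + 1 then y1 - p else z i)
        (fun e => if e = kk then j else par e) := by
      constructor
      · intro e he
        by_cases hek : e = kk
        · subst hek
          simp only [if_true]
          refine ⟨hj, ?_⟩
          rw [if_neg (by omega), ← hjp]
          congr 1
          abel
        · simp only [if_neg hek]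
          have h1 := hg.1 e (by omega)
          refine ⟨h1.1, ?_⟩
          rw [if_neg (by omega), if_neg (by omega)]
          exact h1.2
      · intro i hi i' hi' q hq hne
        by_cases h1 : i = kk + 1
        · by_cases h2 : i' = kk + 1
          · simp only [if_pos h1, if_pos h2, sub_self, zero_sub, norm_neg]
            exact hPρ q hq (fun h => hne ⟨h1.trans h2.symm, h⟩)
          · simp only [if_pos h1, if_neg h2]
            have h3 := hfar y1 i' (by omega) (p + q) (P.add_mem hp hq)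
            rw [hy1] at h3
            refine h3.trans (le_of_eq ?_)
            congr 1
            abel
        · by_cases h2 : i' = kk + 1
          · simp only [if_neg h1, if_pos h2]
            have h3 := hfar y1 i (by omega) (p - q) (P.sub_mem hp hq)
            rw [hy1] at h3
            refine h3.trans (le_of_eq ?_)
            rw [← norm_neg]
            congr 1
            abel
          · simp only [if_neg h1, if_neg h2]
            exact hg.2 i (by omega) i' (by omega) q hq hne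
    have := hmax _ _ _ hnew
    omega
  -- compactness
  have hKne : K.Nonempty := by
    obtain ⟨p, -, hp⟩ := hKP 0
    exact ⟨_, hp⟩
  obtain ⟨y2, hy2, hy2max⟩ := hK.exists_isMaxOn hKne hcont.continuousOn
  refine ⟨infDist y2 S, hlt y2, infDist_nonneg, fun y => ?_⟩
  obtain ⟨q, hq, hqK⟩ := hKP y
  obtain ⟨j, hj, p, hp, hjp⟩ := hnear (y - q)
  refine ⟨j, hj, p + q, P.add_mem hp hq, ?_⟩
  have h1 : y - z j - (p + q) = y - q - z j - p := by abel
  rw [h1, hjp]
  exact hy2max hqK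

/-! ### The lattice `4 Z^d` in Euclidean space -/

/-- The lattice `4 Z^d`. -/
def lat4 (d : ℕ) : AddSubgroup (EuclideanSpace ℝ (Fin d)) where
  carrier := {x | ∀ i, ∃ n : ℤ, x i = 4 * n}
  add_mem' := by
    intro a b ha hb i
    obtain ⟨n, hn⟩ := ha i
    obtain ⟨m, hm⟩ := hb i
    exact ⟨n + m, by rw [PiLp.add_apply, hn, hm]; push_cast; ring⟩
  zero_mem' := fun i => ⟨0, by simp⟩
  neg_mem' := by
    intro a ha i
    obtain ⟨n, hn⟩ := ha i
    exact ⟨-n, by rw [PiLp.neg_apply, hn]; push_cast; ring⟩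

theorem mem_lat4 {d : ℕ} (x : EuclideanSpace ℝ (Fin d)) :
    x ∈ lat4 d ↔ ∀ i, ∃ n : ℤ, x i = 4 * n := Iff.rfl

theorem abs_coord_le {d : ℕ} (x : EuclideanSpace ℝ (Fin d)) (i : Fin d) : |x i| ≤ ‖x‖ := by
  have h := PiLp.norm_apply_le x i
  rwa [Real.norm_eq_abs] at h

theorem lat4_norm {d : ℕ} (p : EuclideanSpace ℝ (Fin d)) (hp : p ∈ lat4 d) (h0 : p ≠ 0) : 4 ≤ ‖p‖ := by
  have h1 : ∃ i, p i ≠ 0 := by
    by_contra hcon
    push Not at hcon
    exact h0 (by ext i; simpa using hcon i)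
  obtain ⟨i, hi⟩ := h1
  obtain ⟨n, hn⟩ := hp i
  have hn0 : n ≠ 0 := by
    rintro rfl
    exact hi (by rw [hn]; simp)
  refine le_trans ?_ (abs_coord_le p i)
  rw [hn, abs_mul, abs_of_pos (by norm_num : (0 : ℝ) < 4)]
  have h2 : (1 : ℝ) ≤ |(n : ℝ)| := by
    rw [← Int.cast_abs]
    exact_mod_cast Int.one_le_abs hn0
  linarith

theorem lat4_closed (d : ℕ) : IsClosed (lat4 d : Set (EuclideanSpace ℝ (Fin d))) := by
  have h1 : (lat4 d : Set (EuclideanSpace ℝ (Fin d))) =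
      ⋂ i, (fun x : EuclideanSpace ℝ (Fin d) => x i / 4) ⁻¹' (range (fun n : ℤ => (n : ℝ))) := by
    ext x
    simp only [SetLike.mem_coe, mem_lat4, mem_iInter, mem_preimage, mem_range]
    constructor
    · intro h i
      obtain ⟨n, hn⟩ := h i
      exact ⟨n, by rw [hn]; ring⟩
    · intro h i
      obtain ⟨n, hn⟩ := h i
      exact ⟨n, by rw [hn]; ring⟩
  rw [h1]
  apply isClosed_iInter
  intro i
  apply IsClosed.preimage
  · fun_prop
  · exact Int.isClosedEmbedding_coe_real.isClosed_range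

theorem lat4_cocompact (d : ℕ) (y : EuclideanSpace ℝ (Fin d)) :
    ∃ p ∈ lat4 d, y - p ∈ closedBall (0 : EuclideanSpace ℝ (Fin d)) (4 * Real.sqrt d) := by
  refine ⟨WithLp.toLp 2 (fun i => 4 * (⌊y i / 4⌋ : ℝ)), fun i => ⟨⌊y i / 4⌋, rfl⟩, ?_⟩
  rw [mem_closedBall, dist_zero_right, EuclideanSpace.norm_eq]
  have h1 : ∀ i, ‖(y - WithLp.toLp 2 (fun i => 4 * (⌊y i / 4⌋ : ℝ))) i‖ ^ 2 ≤ 4 ^ 2 := by
    intro i
    rw [PiLp.sub_apply]
    have h2 : y i - 4 * (⌊y i / 4⌋ : ℝ) = 4 * Int.fract (y i / 4) := by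
      rw [Int.fract]; ring
    have h3 : ‖y i - 4 * (⌊y i / 4⌋ : ℝ)‖ ≤ 4 := by
      rw [h2, Real.norm_eq_abs, abs_of_nonneg (mul_nonneg (by norm_num) (Int.fract_nonneg _))]
      have := Int.fract_lt_one (y i / 4)
      linarith
    exact pow_le_pow_left₀ (norm_nonneg _) h3 2
  refine (Real.sqrt_le_sqrt (Finset.sum_le_sum (fun i _ => h1 i))).trans ?_
  rw [Finset.sum_const, Finset.card_univ, Fintype.card_fin, nsmul_eq_mul, mul_comm,
    Real.sqrt_mul (by norm_num), Real.sqrt_sq (by norm_num)]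

/-- Statement (1.1) of the page. -/
theorem exists_tree_packing (d : ℕ) :
    ∃ (k : ℕ) (z : ℕ → EuclideanSpace ℝ (Fin d)) (par : ℕ → ℕ),
      (∀ e < k, par e ≤ e ∧ ‖z (e + 1) - z (par e)‖ = 3 / 2) ∧
      (∀ i ≤ k, ∀ j ≤ k, ∀ p ∈ lat4 d, ¬ (i = j ∧ p = 0) → 3 / 2 ≤ ‖z i - z j - p‖) ∧
      ∃ R < (3 / 2 : ℝ), 0 ≤ R ∧ ∀ y, ∃ j ≤ k, ∃ p ∈ lat4 d, ‖y - z j - p‖ ≤ R := by
  obtain ⟨k, z, par, hg, hR⟩ := exists_packing (lat4 d) (lat4_closed d) (ρ := 3 / 2) (by norm_num)
    (fun p hp h0 => le_trans (by norm_num) (lat4_norm p hp h0))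
    (isCompact_closedBall (0 : EuclideanSpace ℝ (Fin d)) (4 * Real.sqrt d)) (lat4_cocompact d)
  exact ⟨k, z, par, hg.1, hg.2, hR⟩

end Pool.Agent.Helper77.GB
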